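import Mathlib

/-!
# Divisibility of the sum of identical dice

`n` identical dice with face set `F` (finite, non-empty) and integer labels `f : F → ℤ` are tossed
independently and uniformly.  The probability that `n` divides the sum of the labels shown is at
least `1 / 2 ^ (n - 1)`.
-/

namespace Pool.Agent.Results.MP_652ce8_co.Dice

open Finset
open scoped Pointwise

universe u

/-- Outcomes of `n` tosses whose label sum is divisible by `n`. -/
abbrev Good (n : ℕ) {F : Type u} (f : F → ℤ) : Type u :=
  {x : Fin n → F // (n : ℤ) ∣ ∑ i, f (x i)}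

/-- The statement to be proved, in counting form. -/
def Holds (n : ℕ) : Prop :=
  ∀ (F : Type u) [Finite F] (f : F → ℤ),
    Nat.card F ^ n ≤ 2 ^ (n - 1) * Nat.card (Good n f)

/-- Sums of `k` pairs of distinct residues modulo a prime `p` take at least `min p (k+1)` values. -/
lemma card_sums {p : ℕ} [Fact p.Prime] {ι : Type*} [DecidableEq ι] (w : ι → Fin 2 → ZMod p)
    (s : Finset ι) (hw : ∀ i ∈ s, w i 0 ≠ w i 1) :
    ∃ S : Finset (ZMod p), min p (s.card + 1) ≤ S.card ∧
      ∀ t ∈ S, ∃ e : ι → Fin 2, ∑ i ∈ s, w i (e i) = t := by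
  classical
  induction s using Finset.induction_on with
  | empty =>
    refine ⟨{0}, by simp, ?_⟩
    intro t ht
    refine ⟨fun _ => 0, ?_⟩
    simpa using (Finset.mem_singleton.1 ht).symm
  | insert j s hj ih =>
    obtain ⟨S, hS, hS'⟩ := ih (fun i hi => hw i (Finset.mem_insert_of_mem hi))
    have hne : w j 0 ≠ w j 1 := hw j (Finset.mem_insert_self _ _)
    have hSne : S.Nonempty := by
      rw [← Finset.card_pos]
      have hp : 0 < p := (Fact.out : p.Prime).pos
      omega
    have hpair : ({w j 0, w j 1} : Finset (ZMod p)).card = 2 := Finset.card_pair hne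
    have hCD := ZMod.cauchy_davenport (Fact.out : p.Prime) (s := S)
      (t := ({w j 0, w j 1} : Finset (ZMod p))) hSne (by simp)
    refine ⟨S + ({w j 0, w j 1} : Finset (ZMod p)), ?_, ?_⟩
    · rw [Finset.card_insert_of_notMem hj]
      rw [hpair] at hCD
      have hp : 0 < p := (Fact.out : p.Prime).pos
      omega
    · intro t ht
      obtain ⟨a, ha, b, hb, rfl⟩ := Finset.mem_add.1 ht
      obtain ⟨e, he⟩ := hS' a ha
      have hb' : ∃ c : Fin 2, w j c = b := by
        rcases Finset.mem_insert.1 hb with h | h
        · exact ⟨0, h.symm⟩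
        · exact ⟨1, (Finset.mem_singleton.1 h).symm⟩
      obtain ⟨c, hc⟩ := hb'
      refine ⟨Function.update e j c, ?_⟩
      rw [Finset.sum_insert hj, Function.update_self, hc, add_comm]
      congr 1
      rw [← he]
      apply Finset.sum_congr rfl
      intro i hi
      rw [Function.update_of_ne]
      rintro rfl
      exact hj hi

/-- Given `p` pairs of residues mod `p`, which are either all non-degenerate or all contain a common
residue, at least two choices (one element from each pair) have sum zero. -/
lemma two_choices {p : ℕ} [Fact p.Prime] (w : Fin p → Fin 2 → ZMod p)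
    (hw : (∀ i, w i 0 ≠ w i 1) ∨ ∃ a, ∀ i, w i 0 = a ∨ w i 1 = a) :
    ∃ E : Fin 2 → (Fin p → Fin 2), Function.Injective E ∧ ∀ b, ∑ i, w i (E b i) = 0 := by
  classical
  have hp : 0 < p := (Fact.out : p.Prime).pos
  by_cases hall : ∀ i, w i 0 ≠ w i 1
  · -- all pairs non-degenerate
    let l : Fin p := ⟨0, hp⟩
    obtain ⟨S, hS, hS'⟩ := card_sums w (Finset.univ.erase l) (fun i _ => hall i)
    have hc : (Finset.univ.erase l).card + 1 = p := by
      rw [Finset.card_erase_of_mem (Finset.mem_univ _), Finset.card_univ, Fintype.card_fin]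
      omega
    rw [hc, min_self] at hS
    have hSu : S = Finset.univ := by
      apply Finset.eq_univ_of_card
      have := Finset.card_le_univ S
      rw [ZMod.card] at *
      omega
    have key : ∀ b : Fin 2, ∃ e : Fin p → Fin 2, e l = b ∧ ∑ i, w i (e i) = 0 := by
      intro b
      obtain ⟨e, he⟩ := hS' (-(w l b)) (by rw [hSu]; exact Finset.mem_univ _)
      refine ⟨Function.update e l b, Function.update_self _ _ _, ?_⟩
      rw [← Finset.add_sum_erase _ _ (Finset.mem_univ l), Function.update_self]
      have : ∑ i ∈ Finset.univ.erase l, w i (Function.update e l b i)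
          = ∑ i ∈ Finset.univ.erase l, w i (e i) := by
        apply Finset.sum_congr rfl
        intro i hi
        rw [Function.update_of_ne (Finset.ne_of_mem_erase hi)]
      rw [this, he]
      ring
    choose E hE1 hE2 using key
    refine ⟨E, ?_, hE2⟩
    intro b b' h
    rw [← hE1 b, ← hE1 b', h]
  · have hw2 : ∃ a, ∀ i, w i 0 = a ∨ w i 1 = a := by
      rcases hw with h | h
      · exact absurd h hall
      · exact h
    obtain ⟨a, ha⟩ := hw2
    push Not at hall
    obtain ⟨j, hj⟩ := hall
    have hja : ∀ b, w j b = a := by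
      intro b
      have h01 : w j 0 = a ∧ w j 1 = a := by
        rcases ha j with h | h
        · exact ⟨h, hj ▸ h⟩
        · exact ⟨hj.trans h, h⟩
      fin_cases b
      · exact h01.1
      · exact h01.2
    have hch : ∀ i, ∃ c, w i c = a := by
      intro i
      rcases ha i with h | h
      · exact ⟨0, h⟩
      · exact ⟨1, h⟩
    choose c hc using hch
    refine ⟨fun b => Function.update c j b, ?_, ?_⟩
    · intro b b' h
      have := congrFun h j
      simpa using this
    · intro b
      have : ∀ i, w i (Function.update c j b i) = a := by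
        intro i
        by_cases hi : i = j
        · subst hi
          rw [Function.update_self]
          exact hja b
        · rw [Function.update_of_ne hi]
          exact hc i
      simp [this]

/-- Prime case for dice with an even number of faces. -/
lemma prime_even {p : ℕ} [Fact p.Prime] {h : ℕ} {G : Type u} [Finite G] (f : G → ℤ)
    (hG : Nat.card G = 2 * h) :
    Nat.card G ^ p ≤ 2 ^ (p - 1) * Nat.card (Good p f) := by
  classical
  have hp : 0 < p := (Fact.out : p.Prime).pos
  -- enumerate the faces
  obtain ⟨φ⟩ : Nonempty (Fin (2 * h) ≃ G) := by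
    have := Fintype.ofFinite G
    rw [Nat.card_eq_fintype_card] at hG
    exact ⟨(Fintype.equivFinOfCardEq hG).symm⟩
  let g0 : Fin (2 * h) → ℕ := fun i => ((f (φ i) : ZMod p)).val
  let σ : Equiv.Perm (Fin (2 * h)) := Tuple.sort g0
  have hmono : Monotone (g0 ∘ σ) := Tuple.monotone_sort g0
  let ψ : Fin 2 × Fin h ≃ G := finProdFinEquiv.trans (σ.trans φ)
  let c : Fin h → Fin 2 → ZMod p := fun i b => ((f (ψ (b, i)) : ℤ) : ZMod p)
  have hcval : ∀ i b, (c i b).val = (g0 ∘ σ) (finProdFinEquiv (b, i)) := fun i b => rfl
  -- position of a pair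
  have hpos : ∀ (b : Fin 2) (i : Fin h), (finProdFinEquiv (b, i) : Fin (2 * h)).val
      = i.val + h * b.val := fun b i => rfl
  have hstar : (∀ i, c i 0 ≠ c i 1) ∨ ∃ a, ∀ i, c i 0 = a ∨ c i 1 = a := by
    by_cases hall : ∀ i, c i 0 ≠ c i 1
    · exact Or.inl hall
    · right
      push Not at hall
      obtain ⟨i0, hi0⟩ := hall
      refine ⟨c i0 0, ?_⟩
      have hinj : ∀ x y : ZMod p, x.val = y.val → x = y := fun x y hxy =>
        ZMod.val_injective p hxy
      intro i
      by_cases hii : i.val ≤ i0.val
      · right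
        apply hinj
        apply le_antisymm
        · rw [hi0, hcval, hcval]
          apply hmono
          rw [Fin.le_def, hpos, hpos]
          simpa using hii
        · rw [hcval, hcval]
          apply hmono
          rw [Fin.le_def, hpos, hpos]
          have := i0.isLt
          simp
          omega
      · left
        apply hinj
        apply le_antisymm
        · rw [hi0, hcval, hcval]
          apply hmono
          rw [Fin.le_def, hpos, hpos]
          have := i.isLt
          simp
          omega
        · rw [hcval, hcval]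
          apply hmono
          rw [Fin.le_def, hpos, hpos]
          simp
          omega
  have key : ∀ y : Fin p → Fin h, ∃ E : Fin 2 → (Fin p → Fin 2), Function.Injective E ∧
      ∀ b, ∑ i, c (y i) (E b i) = 0 := by
    intro y
    apply two_choices (fun i => c (y i))
    rcases hstar with hs | ⟨a, hs⟩
    · exact Or.inl fun i => hs (y i)
    · exact Or.inr ⟨a, fun i => hs (y i)⟩
  choose E hE1 hE2 using key
  let Φ : (Fin p → Fin h) × Fin 2 → Good p f := fun q =>
    ⟨fun i => ψ (E q.1 q.2 i, q.1 i), by
      rw [← ZMod.intCast_zmod_eq_zero_iff_dvd]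
      push_cast
      exact hE2 q.1 q.2⟩
  have hΦ : Function.Injective Φ := by
    rintro ⟨y, b⟩ ⟨y', b'⟩ hq
    have h1 : ∀ i, (E y b i, y i) = (E y' b' i, y' i) := by
      intro i
      have := congrFun (congrArg Subtype.val hq) i
      exact ψ.injective this
    have hy : y = y' := funext fun i => (Prod.ext_iff.1 (h1 i)).2
    subst hy
    have hb : E y b = E y b' := funext fun i => (Prod.ext_iff.1 (h1 i)).1
    rw [hE1 y hb]
  have hcard : h ^ p * 2 ≤ Nat.card (Good p f) := by
    have := Nat.card_le_card_of_injective Φ hΦ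
    simpa [Nat.card_prod, Nat.card_eq_fintype_card] using this
  calc Nat.card G ^ p = 2 ^ (p - 1) * (h ^ p * 2) := by
        rw [hG, mul_pow]
        obtain ⟨k, rfl⟩ : ∃ k, p = k + 1 := ⟨p - 1, by omega⟩
        simp only [Nat.add_sub_cancel]
        ring
    _ ≤ _ := Nat.mul_le_mul_left _ hcard

/-- Prime case. -/
lemma prime_case {p : ℕ} (hp : p.Prime) : Holds.{u} p := by
  intro F _ f
  have : Fact p.Prime := ⟨hp⟩
  have hG : Nat.card (F × Fin 2) = 2 * Nat.card F := by
    rw [Nat.card_prod, Nat.card_eq_fintype_card (α := Fin 2), Fintype.card_fin, mul_comm]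
  have h := prime_even (p := p) (G := F × Fin 2) (fun x => f x.1) hG
  -- Good p (doubled) ≃ Good p f × (Fin p → Fin 2)
  let e : Good p (fun x : F × Fin 2 => f x.1) ≃ Good p f × (Fin p → Fin 2) :=
    { toFun := fun x => (⟨fun i => (x.1 i).1, x.2⟩, fun i => (x.1 i).2)
      invFun := fun y => ⟨fun i => (y.1.1 i, y.2 i), y.1.2⟩
      left_inv := fun x => rfl
      right_inv := fun y => rfl }
  have hcard : Nat.card (Good p (fun x : F × Fin 2 => f x.1)) = Nat.card (Good p f) * 2 ^ p := by
    rw [Nat.card_congr e, Nat.card_prod]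
    congr 1
    rw [Nat.card_eq_fintype_card]
    simp
  rw [hG, hcard, mul_pow] at h
  have h2 : 0 < 2 ^ p := by positivity
  apply Nat.le_of_mul_le_mul_left _ h2
  calc 2 ^ p * Nat.card F ^ p ≤ 2 ^ (p - 1) * (Nat.card (Good p f) * 2 ^ p) := h
    _ = 2 ^ p * (2 ^ (p - 1) * Nat.card (Good p f)) := by ring

/-- Multiplicativity. -/
lemma mul_case {q m : ℕ} (hq0 : 0 < q) (hm0 : 0 < m) (hq : Holds.{u} q) (hm : Holds.{u} m) :
    Holds.{u} (q * m) := by
  intro F _ f
  let F' : Type u := Good q f
  let f' : F' → ℤ := fun x => (∑ i, f (x.1 i)) / q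
  have hf' : ∀ x : F', (q : ℤ) * f' x = ∑ i, f (x.1 i) := fun x => Int.mul_ediv_cancel' x.2
  have h1 := hq F f
  have h2 := hm F' f'
  let Φ : Good m f' → Good (q * m) f := fun y =>
    ⟨fun k => (y.1 (finProdFinEquiv.symm k).2).1 (finProdFinEquiv.symm k).1, by
      have hsum : ∑ k : Fin (q * m), f ((y.1 (finProdFinEquiv.symm k).2).1
          (finProdFinEquiv.symm k).1) = (q : ℤ) * ∑ j, f' (y.1 j) := by
        rw [Equiv.sum_comp (finProdFinEquiv (m := q) (n := m)).symm
          (fun z : Fin q × Fin m => f ((y.1 z.2).1 z.1)), Fintype.sum_prod_type_right,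
          Finset.mul_sum]
        exact Finset.sum_congr rfl fun j _ => (hf' (y.1 j)).symm
      rw [hsum]
      push_cast
      exact mul_dvd_mul_left _ y.2⟩
  have hΦ : Function.Injective Φ := by
    intro y y' hyy
    apply Subtype.ext
    funext j
    apply Subtype.ext
    funext i
    have := congrFun (congrArg Subtype.val hyy) (finProdFinEquiv (i, j))
    simpa [Φ] using this
  have h3 : Nat.card (Good m f') ≤ Nat.card (Good (q * m) f) :=
    Nat.card_le_card_of_injective Φ hΦ
  have hexp : (q - 1) * m + (m - 1) = q * m - 1 := by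
    obtain ⟨a, rfl⟩ : ∃ a, q = a + 1 := ⟨q - 1, by omega⟩
    obtain ⟨b, rfl⟩ : ∃ b, m = b + 1 := ⟨m - 1, by omega⟩
    simp only [Nat.add_sub_cancel]
    have : (a + 1) * (b + 1) = a * (b + 1) + b + 1 := by ring
    omega
  calc Nat.card F ^ (q * m) = (Nat.card F ^ q) ^ m := by rw [pow_mul]
    _ ≤ (2 ^ (q - 1) * Nat.card F') ^ m := Nat.pow_le_pow_left h1 m
    _ = 2 ^ ((q - 1) * m) * Nat.card F' ^ m := by rw [mul_pow, ← pow_mul]
    _ ≤ 2 ^ ((q - 1) * m) * (2 ^ (m - 1) * Nat.card (Good m f')) := Nat.mul_le_mul_left _ h2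
    _ = 2 ^ (q * m - 1) * Nat.card (Good m f') := by rw [← mul_assoc, ← pow_add, hexp]
    _ ≤ 2 ^ (q * m - 1) * Nat.card (Good (q * m) f) := Nat.mul_le_mul_left _ h3

lemma holds_of_pos : ∀ n : ℕ, 0 < n → Holds.{u} n := by
  intro n
  induction n using induction_on_primes with
  | zero => intro h; omega
  | one =>
    intro _ F _ f
    have : Nat.card (Good 1 f) = Nat.card F := by
      apply Nat.card_congr
      exact
        { toFun := fun x => x.1 0
          invFun := fun y => ⟨fun _ => y, by simp⟩
          left_inv := fun x => by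
            apply Subtype.ext
            funext i
            have : i = 0 := Subsingleton.elim _ _
            rw [this]
          right_inv := fun y => rfl }
    rw [this]
    simp
  | prime_mul p a hp ih =>
    intro hpos
    have ha : 0 < a := Nat.pos_of_mul_pos_left hpos |> fun _ => by
      rcases Nat.eq_zero_or_pos a with h | h
      · subst h; simp at hpos
      · exact h
    exact mul_case hp.pos ha (prime_case hp) (ih ha)

/-- **Main theorem.**  Toss `n ≥ 1` identical dice with a finite non-empty set `F` of faces labelled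
by integers `f : F → ℤ`; all `|F| ^ n` outcomes are equally likely.  The probability that `n` divides
the sum of the labels shown is at least `1 / 2 ^ (n - 1)`. -/
theorem result (n : ℕ) (hn : 1 ≤ n) (F : Type u) [Finite F] [Nonempty F] (f : F → ℤ) :
    (1 : ℝ) / 2 ^ (n - 1) ≤
      (Nat.card {x : Fin n → F // (n : ℤ) ∣ ∑ i, f (x i)} : ℝ) / (Nat.card (Fin n → F) : ℝ) := by
  have h := holds_of_pos n hn F f
  have hF : 0 < Nat.card F := Nat.card_pos
  have hcard : Nat.card (Fin n → F) = Nat.card F ^ n := by
    have := Fintype.ofFinite F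
    simp [Nat.card_eq_fintype_card]
  rw [hcard, div_le_div_iff₀ (by positivity) (by positivity)]
  have h' : ((Nat.card F ^ n : ℕ) : ℝ) ≤ ((2 ^ (n - 1) * Nat.card (Good n f) : ℕ) : ℝ) := by
    exact_mod_cast h
  push_cast at h' ⊢
  linarith

end Pool.Agent.Results.MP_652ce8_co.Dice
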